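import Pool.Agent.Helper37.Arb.Goals

/-!
PROJECT ARB, packet ARB-CLOSE.
-/

namespace Pool.Agent.Helper19.Arb

open Pool.Agent.Helper36.SC Pool.Agent.Helper37.Arb Polynomial

section
variable {V : Type} [DecidableEq V] (D : AltDiagram V) (x : ℝ)

theorem map_alex : D.alexanderMatrix.map (aeval (-x) : ℤ[X] →ₐ[ℤ] ℝ) = lap D x := by
  ext v w
  simp only [AltDiagram.alexanderMatrix, Matrix.map_apply, Matrix.of_apply, lap, fwd, bwd]
  cases hp : D.pos v
  · simp only [Bool.false_eq_true, if_false]
    split_ifs <;> simp <;> ring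
  · simp only [if_true]
    split_ifs <;> simp <;> ring

variable [Fintype V]

theorem aeval_alexander (u : V) : aeval (-x) (D.alexander u) =
    ((lap D x).submatrix (Subtype.val : {v : V // v ≠ u} → V) Subtype.val).det := by
  unfold AltDiagram.alexander
  rw [AlgHom.map_det, ← map_alex]
  rfl

theorem fwd_add_bwd (v : V) : fwd D x v + bwd D x v = 1 + x := by
  unfold fwd bwd
  cases D.pos v <;> simp [add_comm]

theorem lap_row : (lap D x).mulVec (fun _ => 1) = 0 := by
  funext v
  simp only [Matrix.mulVec, dotProduct, lap, Matrix.of_apply, mul_one, Finset.sum_sub_distrib,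
    ← Finset.mul_sum, Finset.sum_ite_eq', Finset.mem_univ, if_true, Pi.zero_apply]
  have := fwd_add_bwd D x v
  linarith

variable {x}

theorem wf (hx : 0 < x) (k : V → ℤ) (v : V) :
    x ^ (-k v) * fwd D x v = x ^ (-(k v - (if D.pos v then 0 else 1))) := by
  unfold fwd
  cases D.pos v
  · simp only [Bool.false_eq_true, if_false]
    rw [neg_sub, sub_eq_add_neg, zpow_add₀ hx.ne', zpow_one, mul_comm]
  · simp

theorem wb (hx : 0 < x) (k : V → ℤ) (v : V) :
    x ^ (-k v) * bwd D x v = x ^ (1 - (k v + (if D.pos v then 0 else 1))) := by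
  unfold bwd
  cases D.pos v
  · simp only [Bool.false_eq_true, if_false, mul_one]
    congr 1
    ring
  · simp only [if_true, add_zero]
    rw [sub_eq_add_neg, zpow_add₀ hx.ne', zpow_one, mul_comm]

theorem lap_col (hx : 0 < x) (k : V → ℤ)
    (hU : ∀ v, k (D.underNext v) - (if D.pos (D.underNext v) then 0 else 1) =
      k v - (if D.pos v then 0 else 1))
    (hO : ∀ v, k (D.overNext v) + (if D.pos (D.overNext v) then 0 else 1) =
      k v + (if D.pos v then 0 else 1)) :
    Matrix.vecMul (fun v => x ^ (-k v)) (lap D x) = 0 := by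
  funext w
  have h1 : ∀ v, (w = D.underNext v) ↔ (v = D.underNext.symm w) := by
    intro v
    rw [Equiv.eq_symm_apply, eq_comm]
  have h2 : ∀ v, (w = D.overNext.symm v) ↔ (v = D.overNext w) := by
    intro v
    rw [Equiv.eq_symm_apply, eq_comm]
  have e : ∀ v, x ^ (-k v) * lap D x v w = (1 + x) * (if v = w then x ^ (-k v) else 0)
      - (if v = D.underNext.symm w then x ^ (-k v) * fwd D x v else 0)
      - (if v = D.overNext w then x ^ (-k v) * bwd D x v else 0) := by
    intro v
    unfold lap
    rw [Matrix.of_apply]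
    simp only [h1, h2, eq_comm (a := w) (b := v)]
    split_ifs <;> ring
  simp only [Matrix.vecMul, dotProduct, e, Finset.sum_sub_distrib, ← Finset.mul_sum,
    Finset.sum_ite_eq', Finset.mem_univ, if_true, Pi.zero_apply]
  have g1 : x ^ (-k (D.underNext.symm w)) * fwd D x (D.underNext.symm w) =
      x ^ (-k w) * fwd D x w := by
    rw [wf D hx, wf D hx, ← hU (D.underNext.symm w), Equiv.apply_symm_apply]
  have g2 : x ^ (-k (D.overNext w)) * bwd D x (D.overNext w) =
      x ^ (-k w) * bwd D x w := by
    rw [wb D hx, wb D hx, hO w]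
  rw [g1, g2]
  have := fwd_add_bwd D x w
  rw [← this]
  ring

theorem fin (hC : GoalCofactor) (hx : 0 < x) (k : V → ℤ)
    (hU : ∀ v, k (D.underNext v) - (if D.pos (D.underNext v) then 0 else 1) =
      k v - (if D.pos v then 0 else 1))
    (hO : ∀ v, k (D.overNext v) + (if D.pos (D.overNext v) then 0 else 1) =
      k v + (if D.pos v then 0 else 1)) {l : V}
    (hl : k l - (if D.pos l then 0 else 1) = 0) {j : ℤ} {b : ℝ} (hb : 0 < b)
    (hdet : (lap D x + stepU D x l).det = x ^ j * b) (u : V) :
    aeval (-x) (D.alexander u) = x ^ (j - k u) * b := by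
  have hf : 0 < fwd D x l := by
    unfold fwd
    split_ifs
    · exact one_pos
    · exact hx
  have hw : x ^ (-k l) * fwd D x l = 1 := by
    rw [wf D hx, hl, neg_zero, zpow_zero]
  have h1 := hC (lap D x) (fun v => x ^ (-k v)) l (D.underNext l) u (fwd D x l) (lap_row D x)
    (lap_col D hx k hU hO) (zpow_pos hx _).ne' hf.ne' (by
      change (lap D x + stepU D x l).det ≠ 0
      rw [hdet]
      exact (mul_pos (zpow_pos hx _) hb).ne')
  rw [aeval_alexander, h1]
  change (lap D x + stepU D x l).det / fwd D x l * (x ^ (-k u) / x ^ (-k l)) = _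
  rw [hdet, sub_eq_add_neg, zpow_add₀ hx.ne']
  have h2 : (0 : ℝ) < x ^ (-k l) := zpow_pos hx _
  rw [div_mul_div_comm, div_eq_iff (by positivity), mul_comm (fwd D x l), hw]
  ring

end

theorem close : GoalClose := by
  intro hI hC hD
  refine ⟨?_, ?_⟩
  · intro T j hv hR
    obtain ⟨k, hk⟩ := hI T
    refine ⟨fun u => j - k u, fun u x hx => ?_⟩
    obtain ⟨hL0, hR0, hb0, -⟩ := hv x hx
    obtain ⟨hdet, hsol⟩ := hR x hx
    obtain ⟨h, h1, -, h3⟩ := hsol 0 1
    have hpos : 0 < T.data.f x + T.data.r x := by linarith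
    have hne : (openMat true T.diag x).det ≠ 0 := by
      rw [hdet]
      exact (mul_pos (zpow_pos hx _) hpos).ne'
    rw [mul_zero, mul_one, Pi.single_zero, zero_add] at h1
    have h4 := hD (openMat true T.diag x) (T.diag.D.overNext T.diag.r) T.diag.r _ h hne h1
    refine fin T.diag.D hC hx k hk.hU hk.hO hk.hl hb0 ?_ u
    have e : lap T.diag.D x + stepU T.diag.D x T.diag.l = openMat true T.diag x -
        Matrix.single (T.diag.D.overNext T.diag.r) T.diag.r
          (bwd T.diag.D x (T.diag.D.overNext T.diag.r)) := by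
      unfold openMat
      rw [if_pos rfl, stepO, add_sub_cancel_right]
    rw [e, h4, hdet]
    have h5 : h T.diag.r = T.data.r x / (T.data.f x + T.data.r x) := by
      rw [eq_div_iff hpos.ne']
      linarith
    rw [h5]
    field_simp
    ring
  · intro P j hv hR
    obtain ⟨k, hk⟩ := hI P
    refine ⟨fun u => j + 1 - k u, fun u x hx => ?_⟩
    obtain ⟨hL0, hb0⟩ := hv x hx
    obtain ⟨-, hR⟩ := hR
    obtain ⟨hdet, hsol⟩ := hR x hx
    obtain ⟨h, h1, -, h3⟩ := hsol 0 1
    have hpos : 0 < P.data.l x + x * P.data.f x := by positivity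
    have hne : (openMat false P.diag x).det ≠ 0 := by
      rw [hdet]
      exact (mul_pos (zpow_pos hx _) hpos).ne'
    rw [mul_zero, mul_one, Pi.single_zero, zero_add] at h1
    have h4 := hD (openMat false P.diag x) P.diag.r (P.diag.D.underNext P.diag.r) _ h hne h1
    refine fin P.diag.D hC hx k hk.hU hk.hO hk.hl hb0 ?_ u
    have e : lap P.diag.D x + stepU P.diag.D x P.diag.l = openMat false P.diag x -
        Matrix.single P.diag.r (P.diag.D.underNext P.diag.r) (fwd P.diag.D x P.diag.r) := by
      unfold openMat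
      rw [if_neg (by decide)]
      conv_rhs => rw [stepU, stepU]
      rw [stepU, add_sub_cancel_right]
    rw [e, h4, hdet]
    have h5 : h (P.diag.D.underNext P.diag.r) =
        P.data.l x / (P.data.l x + x * P.data.f x) := by
      rw [eq_div_iff hpos.ne']
      linarith
    rw [h5, zpow_add₀ hx.ne', zpow_one]
    field_simp
    ring

end Pool.Agent.Helper19.Arb
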